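import Pool.Agent.K1H2.BI.Stm

set_option autoImplicit false

/-! # Events whose conditional probabilities given the past are bounded below occur infinitely often -/

namespace Pool.Agent.K1H52.BI

open MeasureTheory ProbabilityTheory Filter Pool.Agent.K1H2.BI
open scoped Topology

universe u

theorem t_LEVY : S_LEVY.{u} := by
  intro Ω m0 P hP ν ins hD E hE p hp h
  let 𝓕 : Filtration ℕ m0 :=
    { seq := fun n => past ins n
      mono' := fun n m hnm => iSup₂_le fun j hj => le_iSup₂_of_le j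
        (Finset.mem_range.2 (lt_of_lt_of_le (Finset.mem_range.1 hj) hnm)) le_rfl
      le' := fun n => iSup₂_le fun j _ => (hD.meas j).comap_le }
  have hsup : (⨆ n, past ins n) ≤ m0 := iSup_le fun n => 𝓕.le n
  have hEm : ∀ t, MeasurableSet (E t) := fun t => hsup _ (hE t)
  let F : Set Ω := ⋂ N : ℕ, ⋃ t : ℕ, ⋃ (_ : N ≤ t), E t
  have hFm : MeasurableSet[⨆ n, past ins n] F :=
    MeasurableSet.iInter fun N => MeasurableSet.iUnion fun t => MeasurableSet.iUnion fun _ => hE t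
  have hFm0 : MeasurableSet F := hsup _ hFm
  have hmem : ∀ ω, ω ∈ F → ∃ᶠ t : ℕ in atTop, ω ∈ E t := by
    intro ω hω
    rw [Filter.frequently_atTop]
    intro N
    have h1 := Set.mem_iInter.1 hω N
    simp only [Set.mem_iUnion] at h1
    obtain ⟨t, ht, h2⟩ := h1
    exact ⟨t, ht, h2⟩
  have hstep : ∀ (m : ℕ) (H : Set Ω), MeasurableSet[past ins m] H →
      p * P.real H ≤ P.real (H ∩ F) := by
    intro m H hH
    have hH0 : MeasurableSet H := 𝓕.le m _ hH
    have hFe : (⋂ N : ℕ, (H ∩ ⋃ t : ℕ, ⋃ (_ : N ≤ t), E t)) = H ∩ F := by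
      rw [← Set.inter_iInter]
    have hmeas : ∀ N : ℕ, MeasurableSet (H ∩ ⋃ t : ℕ, ⋃ (_ : N ≤ t), E t) := fun N =>
      hH0.inter (MeasurableSet.iUnion fun t => MeasurableSet.iUnion fun _ => hEm t)
    have hanti : Antitone fun N : ℕ => H ∩ ⋃ t : ℕ, ⋃ (_ : N ≤ t), E t := by
      intro N M hNM
      refine Set.inter_subset_inter_right _ ?_
      refine Set.iUnion_mono fun t => ?_
      exact Set.iUnion_mono' fun ht => ⟨hNM.trans ht, subset_rfl⟩
    have htend : Tendsto (fun N : ℕ => P (H ∩ ⋃ t : ℕ, ⋃ (_ : N ≤ t), E t)) atTop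
        (𝓝 (P (⋂ N : ℕ, (H ∩ ⋃ t : ℕ, ⋃ (_ : N ≤ t), E t)))) :=
      tendsto_measure_iInter_atTop (fun N => (hmeas N).nullMeasurableSet) hanti
        ⟨0, measure_ne_top _ _⟩
    rw [hFe] at htend
    have htr : Tendsto (fun N : ℕ => P.real (H ∩ ⋃ t : ℕ, ⋃ (_ : N ≤ t), E t)) atTop
        (𝓝 (P.real (H ∩ F))) :=
      (ENNReal.tendsto_toReal (measure_ne_top _ _)).comp htend
    refine ge_of_tendsto htr (Filter.Eventually.of_forall fun N => ?_)
    obtain ⟨t, ht⟩ := ((h m H hH).and (eventually_ge_atTop N)).exists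
    refine ht.1.trans (measureReal_mono (Set.inter_subset_inter_right _ ?_))
    intro ω hω
    simp only [Set.mem_iUnion]
    exact ⟨t, ht.2, hω⟩
  -- the conditional probabilities
  let f : Ω → ℝ := F.indicator fun _ => (1 : ℝ)
  have hfi : Integrable f P := (integrable_const (1 : ℝ)).indicator hFm0
  have hfs : StronglyMeasurable[⨆ n, 𝓕 n] f :=
    (@stronglyMeasurable_const _ _ (⨆ n, past ins n) _ (1 : ℝ)).indicator hFm
  have hlim : ∀ᵐ ω ∂P, Tendsto (fun n => (P[f | 𝓕 n]) ω) atTop (𝓝 (f ω)) :=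
    Integrable.tendsto_ae_condExp hfi hfs
  have hlow : ∀ n : ℕ, ∀ᵐ ω ∂P, p / 2 ≤ (P[f | 𝓕 n]) ω := by
    intro n
    have hsm : StronglyMeasurable[𝓕 n] (P[f | 𝓕 n]) := stronglyMeasurable_condExp
    have hHm : MeasurableSet[𝓕 n] {ω | (P[f | 𝓕 n]) ω < p / 2} :=
      hsm.measurable measurableSet_Iio
    have h1 := hstep n _ hHm
    have h2 : ∫ ω in {ω | (P[f | 𝓕 n]) ω < p / 2}, (P[f | 𝓕 n]) ω ∂P =
        ∫ ω in {ω | (P[f | 𝓕 n]) ω < p / 2}, f ω ∂P :=
      setIntegral_condExp (𝓕.le n) hfi hHm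
    have h3 : ∫ ω in {ω | (P[f | 𝓕 n]) ω < p / 2}, f ω ∂P =
        P.real ({ω | (P[f | 𝓕 n]) ω < p / 2} ∩ F) := by
      rw [setIntegral_indicator hFm0, setIntegral_const, smul_eq_mul, mul_one]
    have h4 : ∫ ω in {ω | (P[f | 𝓕 n]) ω < p / 2}, (P[f | 𝓕 n]) ω ∂P ≤
        ∫ ω in {ω | (P[f | 𝓕 n]) ω < p / 2}, (p / 2) ∂P := by
      refine setIntegral_mono_on integrable_condExp.integrableOn
        (integrable_const _).integrableOn (𝓕.le n _ hHm) fun ω hω => ?_
      exact le_of_lt hω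
    rw [setIntegral_const, smul_eq_mul] at h4
    have h5 : P.real {ω | (P[f | 𝓕 n]) ω < p / 2} = 0 := by
      have h6 : 0 ≤ P.real {ω | (P[f | 𝓕 n]) ω < p / 2} := measureReal_nonneg
      nlinarith
    rw [measureReal_eq_zero_iff] at h5
    rw [ae_iff]
    simpa only [not_le] using h5
  filter_upwards [hlim, ae_all_iff.2 hlow] with ω h1 h2
  apply hmem
  by_contra hcon
  have h3 : f ω = 0 := Set.indicator_of_notMem hcon _
  rw [h3] at h1
  have h4 : p / 2 ≤ 0 := ge_of_tendsto h1 (Filter.Eventually.of_forall h2)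
  linarith

end Pool.Agent.K1H52.BI
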